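import Pool.Agent.P.MP_d3e5c7_ag.AFin

/-! A negative curve through very general points with a point of multiplicity `μ ≥ 2` has
arithmetic genus `< 3 μ ^ 3`. -/

open MvPolynomial

namespace Pool.Agent.Results.MP_d3e5c7_ag.GenusBound

theorem result (s : ℕ) :
    ∃ Z : ℕ → MvPolynomial (Fin s × Fin 2) ℂ, (∀ n, Z n ≠ 0) ∧
      ∀ p : Fin s → Fin 2 → ℂ,
        (∀ n, eval (fun ij : Fin s × Fin 2 => p ij.1 ij.2) (Z n) ≠ 0) →
        ∀ (d : ℕ) (m : Fin s → ℕ) (f : MvPolynomial (Fin 2) ℂ), Irreducible f →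
          f.totalDegree = d →
          (∀ i, (∀ j < m i, homogeneousComponent j
              (aeval (fun k : Fin 2 => X k + C (p i k)) f) = 0) ∧
            homogeneousComponent (m i) (aeval (fun k : Fin 2 => X k + C (p i k)) f) ≠ 0) →
          (d : ℤ) ^ 2 < ∑ i, (m i : ℤ) ^ 2 →
          ∀ i, 2 ≤ m i →
            (((d : ℤ) - 1) * (d - 2) - ∑ j, (m j : ℤ) * (m j - 1)) +
              (12 * m i - 6) * (∑ j, (m j : ℤ) ^ 2 - (d : ℤ) ^ 2) ≤
                6 * m i ^ 3 - 3 * m i ^ 2 + 3 * m i + 2 := by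
  obtain ⟨Z, h0, hZ⟩ := Pool.Agent.P.MP_d3e5c7_ag.PA.very_general (Fin s × Fin 2)
  exact ⟨Z, h0, fun p hp d m f hf hd hm ha i hi => (Pool.Agent.P.MP_d3e5c7_ag.PA.A_general p
    (hZ _ hp) f hf d hd m hm _ _ rfl (sub_pos.2 ha) rfl i hi).2.2⟩

end Pool.Agent.Results.MP_d3e5c7_ag.GenusBound
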