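import Pool.Agent.P.MP_d3e5c7_ag.QhD

set_option autoImplicit false

namespace Pool.Agent.Results.MP_d3e5c7_ag.QuasiHomogeneous

open Pool.Agent.P.MP_d3e5c7_ag

/-- For at least 41 very general points, an irreducible plane curve with equal multiplicities at
all points but one, whose strict transform has negative self-intersection, is a (-1)-curve. -/
theorem result (s : ℕ) (hs : 41 ≤ s) :
    ∃ Z : Set (MvPolynomial (Fin s × Fin 2) ℂ), Z.Countable ∧ 0 ∉ Z ∧
      ∀ p : Fin s → Fin 2 → ℂ,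
        (∀ P ∈ Z, MvPolynomial.eval (fun ij : Fin s × Fin 2 => p ij.1 ij.2) P ≠ 0) →
        ∀ (d : ℕ) (m : Fin s → ℕ) (f : MvPolynomial (Fin 2) ℂ), Irreducible f →
          f.totalDegree = d →
          (∀ i : Fin s,
            (∀ j < m i, MvPolynomial.homogeneousComponent j (MvPolynomial.aeval
              (fun k : Fin 2 => MvPolynomial.X k + MvPolynomial.C (p i k)) f) = 0) ∧
            MvPolynomial.homogeneousComponent (m i) (MvPolynomial.aeval
              (fun k : Fin 2 => MvPolynomial.X k + MvPolynomial.C (p i k)) f) ≠ 0) →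
          (d : ℤ) ^ 2 < ∑ i, (m i : ℤ) ^ 2 →
          (∃ o : Fin s, ∀ i j, i ≠ o → j ≠ o → m i = m j) →
          (d : ℤ) ^ 2 - ∑ i, (m i : ℤ) ^ 2 = -1 ∧ 3 * (d : ℤ) - ∑ i, (m i : ℤ) = 1 := by
  have hc : Countable (MvPolynomial (Fin s × Fin 2) ℚ) := by
    rw [← Cardinal.mk_le_aleph0_iff]
    exact MvPolynomial.cardinalMk_le_max.trans
      (max_le (max_le Cardinal.mk_le_aleph0 Cardinal.mk_le_aleph0) le_rfl)
  refine ⟨MvPolynomial.map (algebraMap ℚ ℂ) '' {q | q ≠ 0}, (Set.to_countable _).image _, ?_, ?_⟩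
  · rintro ⟨q, hq, h0⟩
    exact hq (MvPolynomial.map_injective _ (algebraMap ℚ ℂ).injective (by simpa using h0))
  rintro p hp d m f hf rfl hm hneg ⟨o, ho⟩
  have hp' : AlgebraicIndependent ℚ (fun ij : Fin s × Fin 2 => p ij.1 ij.2) := by
    rw [algebraicIndependent_iff]
    intro q hq
    by_contra h0
    apply hp _ ⟨q, h0, rfl⟩
    rw [MvPolynomial.eval_map, ← MvPolynomial.aeval_def, hq]
  have hm' : ∀ i, ordN (p i) f = m i := fun i => (ordN_eq_iff _ hf.ne_zero _).2 (hm i)
  have hN := neg_of_irred p hp' hf (by simp only [dot, hm', ← sq]; omega)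
  have := Qh.main (o := o) (by simpa using hs)
    (fun i j hi hj => by simp only [hm', ho i j hi hj]) hN
  simpa only [IsExc, dot, hm', ← sq] using this

end Pool.Agent.Results.MP_d3e5c7_ag.QuasiHomogeneous
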